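import Pool.Agent.Results.MP_2fa119_al.PrimeNotSection

/-!
Sanity checks for the definitions used in `MP_2fa119_al.PrimeNotSection`.
-/

set_option autoImplicit false

namespace Pool.Agent.Helper6.OmegaSanity

open Pool.Agent.Results.MP_2fa119_al.PrimeNotSection

universe u v w w'

variable {k : Type u} [Field k] {Ω : ℕ → Type v}
variable {A : Type w} [AddCommGroup A] [Module k A]
variable {A' : Type w'} [AddCommGroup A'] [Module k A']

/-- Every algebra is a section of itself. -/
theorem isSection_refl (𝒜 : OmegaAlgebra k Ω A) : IsSection 𝒜 𝒜 := by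
  refine ⟨⊤, ⊥, fun _ _ _ _ => trivial, ⟨bot_le, ?_⟩, ?_⟩
  · rintro n ω a - ⟨i, hi⟩
    rw [Submodule.mem_bot] at hi ⊢
    exact (𝒜.op n ω).map_coord_zero i hi
  · have h0 : (⊥ : Submodule k A).comap (⊤ : Submodule k A).subtype = ⊥ := by
      rw [Submodule.comap_bot, Submodule.ker_subtype]
    refine ⟨(Submodule.quotEquivOfEqBot _ h0).trans Submodule.topEquiv, ?_⟩
    intro n ω a
    rfl

/-- A section lies in the variety: this is the easy converse of the question. -/
theorem memVar_of_isSection (𝒜 : OmegaAlgebra k Ω A) (𝒜' : OmegaAlgebra k Ω A')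
    (h : IsSection 𝒜 𝒜') : MemVar 𝒜 𝒜' := by
  obtain ⟨R, I, hR, hI, e, he⟩ := h
  intro f hf s
  -- lift the substitution
  have hl : ∀ x : ℕ, ∃ r : R, e (Submodule.Quotient.mk r) = s x := by
    intro x
    obtain ⟨q, hq⟩ := e.surjective (s x)
    obtain ⟨y, rfl⟩ := Submodule.Quotient.mk_surjective _ q
    exact ⟨y, hq⟩
  choose r hr using hl
  have hmem : ∀ m : Monomial Ω ℕ, evalMonomial 𝒜' (fun x => (r x : A')) m ∈ R := by
    intro m
    induction m with
    | var x => exact (r x).2
    | app n ω args ih => exact hR n ω _ ih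
  have hval : ∀ m : Monomial Ω ℕ,
      e (Submodule.Quotient.mk ⟨evalMonomial 𝒜' (fun x => (r x : A')) m, hmem m⟩) =
        evalMonomial 𝒜 s m := by
    intro m
    induction m with
    | var x => exact hr x
    | app n ω args ih =>
      have h1 := he n ω (fun i => ⟨evalMonomial 𝒜' (fun x => (r x : A')) (args i), hmem (args i)⟩)
      refine h1.trans ?_
      simp only [ih]
      rfl
  have h1 : evalPoly 𝒜' (fun x => (r x : A')) f = 0 := hf _
  have h2 : evalPoly 𝒜 s f = e (Submodule.Quotient.mk
      (f.sum fun m c => c • (⟨evalMonomial 𝒜' (fun x => (r x : A')) m, hmem m⟩ : R))) := by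
    unfold evalPoly
    simp only [Finsupp.sum]
    rw [← Submodule.mkQ_apply, map_sum, map_sum]
    refine Finset.sum_congr rfl fun m _ => ?_
    rw [map_smul, map_smul, Submodule.mkQ_apply, hval]
  have h3 : (f.sum fun m c => c • (⟨evalMonomial 𝒜' (fun x => (r x : A')) m, hmem m⟩ : R)) =
      0 := by
    apply Subtype.ext
    simp only [Finsupp.sum, Submodule.coe_sum, Submodule.coe_smul, Submodule.coe_zero]
    exact h1
  rw [h2, h3, Submodule.Quotient.mk_zero, map_zero]

/-- The operations induced on a quotient by an ideal are well defined: replacing the arguments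
by congruent ones changes the value by an element of the ideal. -/
theorem op_congr (𝒜 : OmegaAlgebra k Ω A) (R I : Submodule k A)
    (hI : IsIdealOf 𝒜 I R) (n : ℕ) (ω : Ω n) (a b : Fin n → A) (ha : ∀ i, a i ∈ R)
    (hb : ∀ i, b i ∈ R) (hab : ∀ i, a i - b i ∈ I) : 𝒜.op n ω a - 𝒜.op n ω b ∈ I := by
  classical
  -- interpolate between the two tuples
  have key : ∀ l : ℕ, l ≤ n →
      𝒜.op n ω a - 𝒜.op n ω (fun i => if (i : ℕ) < l then b i else a i) ∈ I := by
    intro l
    induction l with
    | zero => intro _; simp
    | succ l ih =>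
      intro hl
      have h1 := ih (by omega)
      set c : Fin n → A := fun i => if (i : ℕ) < l then b i else a i with hc
      have hcu : (fun i : Fin n => if (i : ℕ) < l + 1 then b i else a i) =
          Function.update c ⟨l, by omega⟩ (b ⟨l, by omega⟩) := by
        funext i
        by_cases h : i = ⟨l, by omega⟩
        · subst h; simp
        · rw [Function.update_of_ne h]
          have : (i : ℕ) ≠ l := fun h' => h (Fin.ext h')
          simp only [hc]
          by_cases h2 : (i : ℕ) < l
          · rw [if_pos h2, if_pos (by omega)]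
          · rw [if_neg h2, if_neg (by omega)]
      have hcc : c = Function.update c ⟨l, by omega⟩ (a ⟨l, by omega⟩) := by
        funext i
        by_cases h : i = ⟨l, by omega⟩
        · subst h; simp [hc]
        · rw [Function.update_of_ne h]
      have h2 : 𝒜.op n ω c - 𝒜.op n ω (fun i : Fin n => if (i : ℕ) < l + 1 then b i else a i) =
          𝒜.op n ω (Function.update c ⟨l, by omega⟩ (a ⟨l, by omega⟩ - b ⟨l, by omega⟩)) := by
        rw [hcu, MultilinearMap.map_update_sub, ← hcc]
      have h3 : 𝒜.op n ω (Function.update c ⟨l, by omega⟩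
          (a ⟨l, by omega⟩ - b ⟨l, by omega⟩)) ∈ I := by
        refine hI.2 n ω _ (fun j => ?_) ⟨⟨l, by omega⟩, ?_⟩
        · by_cases h : j = ⟨l, by omega⟩
          · subst h
            rw [Function.update_self]
            exact hI.1 (hab _)
          · rw [Function.update_of_ne h]
            simp only [hc]
            split_ifs
            · exact hb j
            · exact ha j
        · rw [Function.update_self]
          exact hab _
      have h4 := I.add_mem h1 (h2 ▸ h3)
      convert h4 using 1
      abel
  have h := key n le_rfl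
  have h2 : (fun i : Fin n => if (i : ℕ) < n then b i else a i) = b := by
    funext i
    rw [if_pos i.2]
  rwa [h2] at h

end Pool.Agent.Helper6.OmegaSanity
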