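import Pool.Agent.Helper6.Shape.AppC

open Filter Topology MeasureTheory Set
open Pool.Agent.Helper57.PC Pool.Agent.Helper6.Shape

/-- One shape suffices: if for a single nonnegative bounded measurable function g, vanishing outside
a compact subset of (0,∞) and bounded below by a positive constant on some interval, the pair sums of
all dilates of g have the size predicted by the density 1 - (sin πu/πu)², then the pair counts
N(T;α,β) of Q1 have the predicted size for every 0 < α < β. -/
theorem Pool.Agent.Results.MP_8958e8_nt.OneShapeSuffices.result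
    (g : ℝ → ℝ) (hmeas : Measurable g) (hnonneg : ∀ u, 0 ≤ g u) (hbdd : ∃ M : ℝ, ∀ u, g u ≤ M)
    (a b : ℝ) (ha : 0 < a) (hsupp : ∀ u, u ∉ Icc a b → g u = 0)
    (p q c : ℝ) (hpq : p < q) (hc : 0 < c) (hlow : ∀ u ∈ Ioo p q, c ≤ g u)
    (hshape : ∀ α : ℝ, 0 < α →
      Tendsto (fun T : ℝ => pairSum g T α / (T * Real.log T / (2 * Real.pi))) atTop
        (𝓝 (∫ u in Ioi (0:ℝ), g (u / α) * pcDensity u))) :
    ∀ α β : ℝ, 0 < α → α < β →
      Tendsto (fun T : ℝ => pairCount T α β / (T * Real.log T / (2 * Real.pi))) atTop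
        (𝓝 (∫ u in α..β, pcDensity u)) :=
  fun _ _ hα hαβ => oneShape hmeas hnonneg hbdd ha hsupp hpq hc hlow hshape hα hαβ
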